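import Mathlib

/-!
The parity conjecture for base changes of Hilbert modular forms along Galois extensions.
-/

set_option autoImplicit false

namespace Pool.Agent.Results.MP_d4aa36_nt.BaseChangeForms

/-- A Galois extension `F/F₀` of totally real fields with group `G`, a Hilbert newform `g₀` over
`F₀` as in the problem (even weights, trivial central character), `g` its base change to `F`
(assumed cuspidal), and a finite place `l` of the coefficient field above `p`; `V` is the
representation attached to `g₀` and `l`.
`Irr`: irreducible representations `r` of `G` (degree, dual); `mult r = dim H¹_f(F₀, V ⊗ r)`,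
`order r = ord_{s=0} L(V ⊗ r, s)`.
`Twist`: the pairs of a subextension `M/F₀` of odd degree (`degree`) and a character `c` of
`Gal(F/M)` with `c² = 1`; `selmer t = dim H¹_f(M, V ⊗ c)`, `lorder t` the order of vanishing at
`s = 0` of `L(V|_M ⊗ c, s)`; `InducesTo t r`: `c` induces to the irreducible representation `r`. -/
structure Setting where
  Irr : Type
  [fintype : Fintype Irr]
  deg : Irr → ℕ
  dual : Irr → Irr
  mult : Irr → ℤ
  order : Irr → ℤ
  Twist : Type
  degree : Twist → ℕ
  selmer : Twist → ℤ
  lorder : Twist → ℤ
  InducesTo : Twist → Irr → Prop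
  solvable : Prop
  twoComplement : Prop
  /-- `p` is odd and splits completely in `F₀`, `g₀` is not supercuspidal at the places above `p`,
  and, if `[F₀ : ℚ]` is odd, `g₀` is not principal series at some place prime to `p`. -/
  SplitBelow : Prop

attribute [instance] Setting.fintype

variable (S : Setting)

/-- `dim H¹_f(F, V_g)`: the decomposition of `H¹_f(F, V)` under `G`. -/
def Setting.selmerTop : ℤ := ∑ r, S.deg r * S.mult r

/-- `ord_{s=0} L(V_g, s)`: the factorisation of the `L`-function of the base change. -/
def Setting.orderTop : ℤ := ∑ r, S.deg r * S.order r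

/-- Duality: `V ⊗ r` and `V ⊗ r*` are Kummer dual, and as all `r` are trivial on complex
conjugations the Greenberg-Wiles formula gives equal dimensions. -/
def Setting.SelmerDuality : Prop := ∀ r, S.dual (S.dual r) = r ∧ S.deg (S.dual r) = S.deg r ∧
  S.mult (S.dual r) = S.mult r

/-- `L(V ⊗ r*, s)` is the complex conjugate of `L(V ⊗ r, s̄)`. -/
def Setting.Conjugation : Prop := ∀ r, S.order (S.dual r) = S.order r

/-- Shapiro's lemma and inductivity of `L`-functions. -/
def Setting.Reciprocity : Prop := ∀ t r, S.InducesTo t r →
  S.selmer t = S.mult r ∧ S.lorder t = S.order r ∧ S.degree t = S.deg r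

/-- Gow: if `G` is solvable, every self-dual irreducible representation of odd degree is induced
from a character `c` of a subgroup with `c² = 1`; if `G` has a normal subgroup of odd order whose
index is a power of `2`, this subgroup is all of `G`. -/
def Setting.Gow : Prop :=
  (S.solvable → ∀ r, S.dual r = r → Odd (S.deg r) → ∃ t, S.InducesTo t r) ∧
  (S.twoComplement → ∀ r, S.dual r = r → Odd (S.deg r) → S.deg r = 1 ∧ ∃ t, S.InducesTo t r)

/-- The parity statement for a quadratic twist over a subextension. -/
def Setting.ParityFor (t : S.Twist) : Prop := Even (S.selmer t - S.lorder t)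

/-- The parity statement for `g` and `l`. -/
def Setting.ParityTop : Prop := Even (S.selmerTop - S.orderTop)

/-- The case of the parity conjecture recorded in the problem, for the twists of `g₀` by quadratic
characters over `F₀` (they satisfy the same local conditions). -/
def Setting.KnownCase : Prop := S.SplitBelow → ∀ t, S.degree t = 1 → S.ParityFor t

variable {S}

theorem key (h1 : S.SelmerDuality) (h2 : S.Conjugation)
    (h : ∀ r, S.dual r = r → Odd (S.deg r) → Even (S.mult r - S.order r)) : S.ParityTop := by
  classical
  unfold Setting.ParityTop Setting.selmerTop Setting.orderTop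
  rw [← Finset.sum_sub_distrib, ← ZMod.intCast_eq_zero_iff_even, Int.cast_sum]
  refine Finset.sum_involution (fun r _ => S.dual r) (fun r _ => ?_) (fun r _ hne => ?_)
    (fun r _ => Finset.mem_univ _) (fun r _ => (h1 r).1)
  · rw [(h1 r).2.1, (h1 r).2.2, h2 r, ← Int.cast_add, ZMod.intCast_eq_zero_iff_even, ← two_mul]
    exact even_two_mul _
  · intro hd
    apply hne
    rw [ZMod.intCast_eq_zero_iff_even, ← mul_sub]
    rcases Nat.even_or_odd (S.deg r) with he | ho
    · exact Even.mul_right (by exact_mod_cast he) _
    · exact Even.mul_left (h r hd ho) _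

/-- **Parity for base changes.**  (1) If `G = Gal(F/F₀)` is solvable, the parity statement for `g`
and `l` follows from that for the quadratic twists of the base changes of `g₀` to the subextensions
`M/F₀` of odd degree.

(2) If `G` has a normal `2`-complement (for instance if `G` is nilpotent or of odd order), it
follows from that for the quadratic twists of `g₀` over `F₀`; so it holds whenever `p` is odd and
splits completely in the small field `F₀`, `g₀` is not supercuspidal above `p` and, if `[F₀ : ℚ]` is
odd, `g₀` is not principal series at some place prime to `p`. -/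
theorem result (S : Setting) (h1 : S.SelmerDuality) (h2 : S.Conjugation) (h3 : S.Reciprocity)
    (h4 : S.Gow) :
    (S.solvable → (∀ t, Odd (S.degree t) → S.ParityFor t) → S.ParityTop) ∧
    (S.twoComplement → (∀ t, S.degree t = 1 → S.ParityFor t) → S.ParityTop) ∧
    (S.KnownCase → S.twoComplement → S.SplitBelow → S.ParityTop) := by
  have h5 : S.twoComplement → (∀ t, S.degree t = 1 → S.ParityFor t) → S.ParityTop := by
    refine fun hG h => key h1 h2 fun r hr hodd => ?_
    obtain ⟨hone, t, ht⟩ := h4.2 hG r hr hodd
    obtain ⟨e1, e2, e3⟩ := h3 t r ht
    have := h t (e3.trans hone)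
    unfold Setting.ParityFor at this
    rwa [e1, e2] at this
  refine ⟨fun hG h => key h1 h2 fun r hr hodd => ?_, h5, fun hK hG hs => h5 hG (hK hs)⟩
  obtain ⟨t, ht⟩ := h4.1 hG r hr hodd
  obtain ⟨e1, e2, e3⟩ := h3 t r ht
  have := h t (e3 ▸ hodd)
  unfold Setting.ParityFor at this
  rwa [e1, e2] at this

end Pool.Agent.Results.MP_d4aa36_nt.BaseChangeForms
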